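import Mathlib

set_option autoImplicit false

namespace Pool.Agent.Results.MP_020e3f_lc.DoublyExp

open Sum

/-- a 1-GVAS with nonterminal set `N` -/
structure GVAS (N : Type) where
  start : N
  rules : Finset (N × List (N ⊕ ℤ))

/-- `Der G α w s`: there is an ordered forest of derivation trees of `G` whose roots are labelled
`α` from left to right, whose yield is `w` and which has `s` vertices. -/
inductive Der {N : Type} (G : GVAS N) : List (N ⊕ ℤ) → List (N ⊕ ℤ) → ℕ → Prop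
  | nil : Der G [] [] 0
  | leaf (x : N ⊕ ℤ) {α w : List (N ⊕ ℤ)} {s : ℕ} : Der G α w s → Der G (x :: α) (x :: w) (s + 1)
  | node {Y : N} {β α w₁ w₂ : List (N ⊕ ℤ)} {s₁ s₂ : ℕ} : (Y, β) ∈ G.rules →
      Der G β w₁ s₁ → Der G α w₂ s₂ → Der G (inl Y :: α) (w₁ ++ w₂) (s₁ + s₂ + 1)

/-- no `X`-derivation has a yield containing `X` twice -/
def Thin {N : Type} (G : GVAS N) : Prop :=
  ∀ (X : N) (α β γ : List (N ⊕ ℤ)) (s : ℕ), ¬ Der G [inl X] (α ++ inl X :: β ++ inl X :: γ) s

/-- there is a derivation of `G` from `a` to `b` with `s` vertices -/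
def Deriv {N : Type} (G : GVAS N) (a b s : ℕ) : Prop :=
  ∃ z : List ℤ, Der G [inl G.start] (z.map inr) s ∧
    (∀ i ≤ z.length, 0 ≤ (a : ℤ) + (z.take i).sum) ∧ (a : ℤ) + z.sum = b

/-- number of bits of a symbol: `0` for a nonterminal -/
def bits {N : Type} : N ⊕ ℤ → ℕ
  | inl _ => 0
  | inr z => Nat.size z.natAbs

/-- the size of a grammar -/
def size {N : Type} [Fintype N] (G : GVAS N) : ℕ :=
  Fintype.card N + G.rules.card + ∑ r ∈ G.rules, r.2.length + ∑ r ∈ G.rules, (r.2.map bits).sum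

section general
variable {N : Type} {G : GVAS N}

inductive Step (G : GVAS N) : List (N ⊕ ℤ) → ℤ → ℤ → ℕ → Prop
  | nil {x : ℤ} : 0 ≤ x → Step G [] x x 0
  | int {z x y : ℤ} {α : List (N ⊕ ℤ)} {s : ℕ} : 0 ≤ x → Step G α (x + z) y s →
      Step G (inr z :: α) x y (s + 1)
  | node {Y : N} {β α : List (N ⊕ ℤ)} {x u y : ℤ} {s₁ s₂ : ℕ} : (Y, β) ∈ G.rules →
      Step G β x u s₁ → Step G α u y s₂ → Step G (inl Y :: α) x y (s₁ + s₂ + 1)

def ok : ℤ → List ℤ → Prop
  | x, [] => 0 ≤ x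
  | x, z :: w => 0 ≤ x ∧ ok (x + z) w

lemma ok_iff (w : List ℤ) : ∀ x : ℤ, ok x w ↔ ∀ i ≤ w.length, 0 ≤ x + (w.take i).sum := by
  induction w with
  | nil => intro x; simp [ok]
  | cons z w ih =>
    intro x
    simp only [ok, ih, List.length_cons]
    constructor
    · rintro ⟨h0, h⟩ i hi
      cases i with
      | zero => simpa using h0
      | succ i => simpa [add_assoc] using h i (by omega)
    · intro h
      exact ⟨by simpa using h 0 (by omega), fun i hi => by
        simpa [add_assoc] using h (i + 1) (by omega)⟩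

lemma ok_nonneg {x : ℤ} {w : List ℤ} (h : ok x w) : 0 ≤ x := by
  cases w with
  | nil => exact h
  | cons z w => exact h.1

lemma ok_append (u v : List ℤ) : ∀ x : ℤ, ok x (u ++ v) ↔ ok x u ∧ ok (x + u.sum) v := by
  induction u with
  | nil => intro x; simpa [ok] using ok_nonneg
  | cons z u ih => intro x; simp [ok, ih, add_assoc, and_assoc]

lemma der_step {α w : List (N ⊕ ℤ)} {s : ℕ} (h : Der G α w s) :
    ∀ (z : List ℤ) (x : ℤ), w = z.map inr → ok x z → Step G α x (x + z.sum) s := by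
  induction h with
  | nil =>
    intro z x hz hx
    obtain rfl : z = [] := by simpa using hz
    simpa using Step.nil hx
  | leaf a _ ih =>
    intro z x hz hx
    cases z with
    | nil => simp at hz
    | cons c z =>
      simp only [List.map_cons, List.cons.injEq] at hz
      rw [hz.1, List.sum_cons, ← add_assoc]
      exact Step.int hx.1 (ih z _ hz.2 hx.2)
  | node hr _ _ ih1 ih2 =>
    intro z x hz hx
    obtain ⟨z1, z2, rfl, h1, h2⟩ := List.append_eq_map_iff.1 hz
    rw [ok_append] at hx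
    rw [List.sum_append, ← add_assoc]
    exact Step.node hr (ih1 z1 x h1.symm hx.1) (ih2 z2 _ h2.symm hx.2)

lemma step_der {α : List (N ⊕ ℤ)} {x y : ℤ} {s : ℕ} (h : Step G α x y s) :
    ∃ z : List ℤ, Der G α (z.map inr) s ∧ ok x z ∧ x + z.sum = y := by
  induction h with
  | nil h => exact ⟨[], Der.nil, h, by simp⟩
  | @int c x y α s h _ ih =>
    obtain ⟨z, h1, h2, h3⟩ := ih
    exact ⟨c :: z, Der.leaf _ h1, ⟨h, h2⟩, by rw [List.sum_cons, ← add_assoc, h3]⟩
  | node hr _ _ ih1 ih2 =>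
    obtain ⟨z1, a1, a2, a3⟩ := ih1
    obtain ⟨z2, b1, b2, b3⟩ := ih2
    refine ⟨z1 ++ z2, by rw [List.map_append]; exact Der.node hr a1 b1, ?_, ?_⟩
    · rw [ok_append, a3]; exact ⟨a2, b2⟩
    · rw [List.sum_append, ← add_assoc, a3, b3]

lemma deriv_iff (a b s : ℕ) : Deriv G a b s ↔ Step G [inl G.start] a b s := by
  constructor
  · rintro ⟨z, h1, h2, h3⟩
    rw [← h3]
    exact der_step h1 z a rfl ((ok_iff z a).2 h2)
  · intro h
    obtain ⟨z, h1, h2, h3⟩ := step_der h
    exact ⟨z, h1, (ok_iff z a).1 h2, h3⟩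

lemma step_nonneg {α : List (N ⊕ ℤ)} {x y : ℤ} {s : ℕ} (h : Step G α x y s) : 0 ≤ x ∧ 0 ≤ y := by
  induction h with
  | nil h => exact ⟨h, h⟩
  | int h _ ih => exact ⟨h, ih.2⟩
  | node _ _ _ ih1 ih2 => exact ⟨ih1.1, ih2.2⟩

lemma step_append {α β : List (N ⊕ ℤ)} {x u y : ℤ} {s t : ℕ} (h : Step G α x u s)
    (h' : Step G β u y t) : ∃ r, Step G (α ++ β) x y r := by
  induction h with
  | nil h => exact ⟨_, h'⟩
  | int h _ ih => obtain ⟨r, hr⟩ := ih h'; exact ⟨_, Step.int h hr⟩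
  | node hr h1 _ _ ih2 => obtain ⟨r, h2⟩ := ih2 h'; exact ⟨_, Step.node hr h1 h2⟩

lemma step_one {Y : N} {β : List (N ⊕ ℤ)} {x y : ℤ} {s : ℕ} (hr : (Y, β) ∈ G.rules)
    (h : Step G β x y s) : ∃ r, Step G [inl Y] x y r :=
  ⟨_, Step.node hr h (Step.nil (step_nonneg h).2)⟩

def Phi (φ : N → ℚ) : List (N ⊕ ℤ) → ℚ → ℚ
  | [], x => x
  | inr z :: α, x => Phi φ α (x + z)
  | inl X :: α, x => Phi φ α (φ X * x)

lemma Phi_mono (φ : N → ℚ) (hφ : ∀ X, 0 ≤ φ X) (α : List (N ⊕ ℤ)) : Monotone (Phi φ α) := by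
  induction α with
  | nil => exact fun _ _ h => h
  | cons a α ih =>
    intro x y h
    cases a with
    | inl X => exact ih (mul_le_mul_of_nonneg_left h (hφ X))
    | inr z => exact ih (by linarith)

lemma step_le (φ : N → ℚ) (hφ : ∀ X, 0 ≤ φ X)
    (hr : ∀ Y β, (Y, β) ∈ G.rules → ∀ x : ℚ, 0 ≤ x → Phi φ β x ≤ φ Y * x)
    {α : List (N ⊕ ℤ)} {x y : ℤ} {s : ℕ} (h : Step G α x y s) : (y : ℚ) ≤ Phi φ α x := by
  induction h with
  | nil h => exact le_rfl
  | int h _ ih => simpa [Phi] using ih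
  | node h h1 _ ih1 ih2 =>
    exact ih2.trans (Phi_mono φ hφ _ (ih1.trans (hr _ _ h _ (by exact_mod_cast (step_nonneg h1).1))))

lemma Phi_map {ι : Type} (φ : N → ℚ) (f : ι → N) (L : List ι) :
    ∀ x, Phi φ (L.map fun i => inl (f i)) x = (L.map fun i => φ (f i)).prod * x := by
  induction L with
  | nil => intro x; simp [Phi]
  | cons a L ih => intro x; simp only [List.map_cons, Phi, ih, List.prod_cons]; ring

def wsum (wt : N → ℕ) (α : List (N ⊕ ℤ)) : ℕ := (α.map (Sum.elim wt fun _ => 0)).sum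

lemma thin_of_wt (wt : N → ℕ) (h0 : ∀ X, 0 < wt X)
    (hr : ∀ Y β, (Y, β) ∈ G.rules → wsum wt β ≤ wt Y) : Thin G := by
  have key : ∀ α w s, Der G α w s → wsum wt w ≤ wsum wt α := by
    intro α w s h
    induction h with
    | nil => exact le_rfl
    | leaf x _ ih => simpa [wsum] using ih
    | node h _ _ ih1 ih2 =>
      have := hr _ _ h
      simp only [wsum, List.map_append, List.sum_append, List.map_cons, List.sum_cons,
        elim_inl] at *
      omega
  intro X α β γ s h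
  have h1 := key _ _ _ h
  have h2 := h0 X
  simp only [wsum, List.map_append, List.sum_append, List.map_cons, List.sum_cons,
    elim_inl, List.map_nil, List.sum_nil] at h1
  omega

end general

def A (k i : ℕ) : ℕ := if i ≤ k then 4 ^ i + 1 else 1
def B (k i : ℕ) : ℕ := if i ≤ k then 4 ^ i else 1
def c (k i : ℕ) : ℕ := A k i * B k (i + 1) ^ 2
def d (k i : ℕ) : ℕ := B k i * A k (i + 1) ^ 2

lemma A_pos (k i : ℕ) : 0 < A k i := by unfold A; split_ifs <;> positivity
lemma B_pos (k i : ℕ) : 0 < B k i := by unfold B; split_ifs <;> positivity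
lemma c_pos (k i : ℕ) : 0 < c k i := Nat.mul_pos (A_pos _ _) (pow_pos (B_pos _ _) _)
lemma d_pos (k i : ℕ) : 0 < d k i := Nat.mul_pos (B_pos _ _) (pow_pos (A_pos _ _) _)

lemma d_le_c (k i : ℕ) : d k i ≤ c k i := by
  unfold c d A B
  have : 1 ≤ 4 ^ i := Nat.one_le_pow _ _ (by norm_num)
  split_ifs with h1 h2 h2
  · rw [pow_succ 4 i]; generalize 4 ^ i = y at *; nlinarith [Nat.mul_le_mul_left y this]
  · simp
  · omega
  · simp

lemma c_lt (k i : ℕ) : c k i < 2 ^ (6 * k + 2) := by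
  have hB : ∀ j, B k j ≤ 4 ^ k := fun j => by
    unfold B; split_ifs with h
    · exact Nat.pow_le_pow_right (by norm_num) h
    · exact Nat.one_le_pow _ _ (by norm_num)
  have hA : A k i ≤ B k i + 1 := by unfold A B; split_ifs <;> omega
  have h1 : 1 ≤ 4 ^ k := Nat.one_le_pow _ _ (by norm_num)
  have e : 2 ^ (6 * k + 2) = 4 * (4 ^ k * (4 ^ k) ^ 2) := by
    rw [show (4 : ℕ) = 2 ^ 2 by norm_num]; simp only [← pow_mul, ← pow_add]; congr 1; ring
  have h2 : c k i ≤ (2 * 4 ^ k) * (4 ^ k) ^ 2 :=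
    Nat.mul_le_mul (by have := hB i; omega) (Nat.pow_le_pow_left (hB _) 2)
  have h3 : 0 < 4 ^ k * (4 ^ k) ^ 2 := by positivity
  rw [e]; nlinarith

lemma tele (k m : ℕ) : (∏ i ∈ Finset.range m, ((c k i : ℚ) / d k i) ^ 2 ^ i) *
    ((A k m : ℚ) / B k m) ^ 2 ^ m = 2 := by
  induction m with
  | zero => simp [A, B]
  | succ m ih =>
    rw [Finset.prod_range_succ, mul_assoc, ← ih]
    congr 1
    rw [pow_succ', pow_mul, ← mul_pow]
    congr 1
    have := A_pos k (m + 1)
    have := B_pos k (m + 1)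
    have := B_pos k m
    simp only [c, d]; push_cast; field_simp

abbrev NT (k : ℕ) := Option (Fin (k + 1) × Fin (k + 1))

def rest (k : ℕ) : List (NT k ⊕ ℤ) :=
  (List.finRange k).map fun i => inl (some (i.castSucc, i.castSucc))

def rhs (k : ℕ) : NT k → Bool → List (NT k ⊕ ℤ)
  | none, true => [inr 1, inl none, inr (-2)]
  | none, false => inl (some (Fin.last k, Fin.last k)) :: rest k
  | some (i, j), b => Fin.cases
      (if b then [inr (-(d k i : ℤ)), inl (some (i, 0)), inr (c k i : ℤ)] else [inr 0])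
      (fun j' => [inl (some (i, j'.castSucc)), inl (some (i, j'.castSucc))]) j

def GG (k : ℕ) : GVAS (NT k) :=
  ⟨none, Finset.univ.image fun p : NT k × Bool => (p.1, rhs k p.1 p.2)⟩

lemma mem_rules {k : ℕ} {Y : NT k} {β : List (NT k ⊕ ℤ)} :
    (Y, β) ∈ (GG k).rules ↔ ∃ b, rhs k Y b = β := by
  simp [GG]

def φ (k : ℕ) : NT k → ℚ
  | none => 2
  | some (i, j) => ((c k i : ℚ) / d k i) ^ 2 ^ (j : ℕ)

lemma φ_nonneg (k : ℕ) (X : NT k) : 0 ≤ φ k X := by
  rcases X with _ | ⟨i, j⟩ <;> simp only [φ] <;> positivity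

lemma Phi_rest (k : ℕ) (x : ℚ) :
    Phi (φ k) (rest k) x = (∏ i ∈ Finset.range k, ((c k i : ℚ) / d k i) ^ 2 ^ i) * x := by
  rw [rest, Phi_map, ← List.ofFn_eq_map, List.prod_ofFn,
    ← Fin.prod_univ_eq_prod_range (fun i => ((c k i : ℚ) / d k i) ^ 2 ^ i)]
  simp [φ]

lemma φ_top (k : ℕ) : φ k (some (Fin.last k, Fin.last k)) = ((A k k : ℚ) / B k k) ^ 2 ^ k := by
  simp [φ, c, d, A, B]

lemma rule_le (k : ℕ) (Y : NT k) (β : List (NT k ⊕ ℤ)) (h : (Y, β) ∈ (GG k).rules) (x : ℚ)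
    (hx : 0 ≤ x) : Phi (φ k) β x ≤ φ k Y * x := by
  obtain ⟨b, rfl⟩ := mem_rules.1 h
  rcases Y with _ | ⟨i, j⟩
  · cases b
    · simp only [rhs, Phi, Phi_rest, φ_top]
      rw [← mul_assoc, tele]; exact le_rfl
    · simp only [rhs, Phi, φ]; push_cast; linarith
  · have hd : (0 : ℚ) < d k i := by exact_mod_cast d_pos k i
    have hc : (d k i : ℚ) ≤ c k i := by exact_mod_cast d_le_c k i
    refine Fin.cases ?_ (fun j' => ?_) j
    · cases b
      · simp only [rhs, Fin.cases_zero, Bool.false_eq_true, if_false, Phi, φ, Fin.val_zero,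
          pow_zero, pow_one]
        have : 1 ≤ (c k i : ℚ) / d k i := by rw [le_div_iff₀ hd]; linarith
        push_cast; nlinarith
      · simp only [rhs, Fin.cases_zero, if_true, Phi, φ, Fin.val_zero, pow_zero, pow_one]
        push_cast
        apply le_of_eq; field_simp; ring
    · simp only [rhs, Fin.cases_succ, Phi, φ, Fin.val_succ, Fin.val_castSucc]
      apply le_of_eq; rw [pow_succ, pow_mul]; ring

lemma lower (k : ℕ) : ∀ (s : ℕ) (x : ℤ), Step (GG k) [inl none] x (2 * x) s →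
    ∃ n : ℕ, n ≤ s ∧ ((4 : ℤ) ^ k) ^ 2 ^ k ∣ x + n := by
  intro s
  induction s using Nat.strong_induction_on with
  | _ s ih =>
    intro x h
    generalize hy : 2 * x = y at h
    cases h with
    | node hr h1 h2 =>
      cases h2
      obtain ⟨b, rfl⟩ := mem_rules.1 hr
      cases b
      · refine ⟨0, by omega, ?_⟩
        simp only [rhs] at h1
        cases h1 with
        | @node _ β _ _ u _ _ _ hr' h3 h4 =>
          obtain ⟨r, h5⟩ := step_one hr' h3
          have a1 := step_le (φ k) (φ_nonneg k) (rule_le k) h5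
          have a2 := step_le (φ k) (φ_nonneg k) (rule_le k) h4
          simp only [Phi, φ_top] at a1
          rw [Phi_rest, ← hy] at a2
          have t := tele k k
          set R := ∏ i ∈ Finset.range k, ((c k i : ℚ) / d k i) ^ 2 ^ i
          set T := ((A k k : ℚ) / B k k) ^ 2 ^ k with hT
          have hT0 : 0 < T := by
            have := A_pos k k
            have := B_pos k k
            positivity
          have e : (u : ℚ) = T * x := by
            apply le_antisymm a1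
            push_cast at a2
            have := mul_le_mul_of_nonneg_left a2 hT0.le
            rw [← mul_assoc T R, mul_comm T R, t] at this
            linarith
          have e2 : u * ((4 : ℤ) ^ k) ^ 2 ^ k = (4 ^ k + 1) ^ 2 ^ k * x := by
            have : (u : ℚ) * ((4 : ℚ) ^ k) ^ 2 ^ k = (4 ^ k + 1) ^ 2 ^ k * x := by
              rw [e, hT]; simp only [A, B, le_refl, if_true]; push_cast
              rw [div_pow]; field_simp
            exact_mod_cast this
          have cop : IsCoprime (((4 : ℤ) ^ k) ^ 2 ^ k) ((4 ^ k + 1) ^ 2 ^ k) :=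
            IsCoprime.pow ⟨-1, 1, by ring⟩
          simpa using cop.dvd_of_dvd_mul_left ⟨u, by rw [← e2]; ring⟩
      · simp only [rhs] at h1
        cases h1 with
        | int _ h3 =>
          cases h3 with
          | @node _ β _ _ u _ s1 _ hr' h4 h5 =>
            cases h5 with
            | int _ h6 =>
              have h7 := Step.node hr' h4 (Step.nil (step_nonneg h4).2)
              generalize hv : u + -2 = v at h6
              cases h6
              obtain rfl : u = 2 * (x + 1) := by omega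
              obtain ⟨n, h8, h9⟩ := ih _ (by omega) _ h7
              exact ⟨n + 1, by omega, by push_cast; convert h9 using 1; ring⟩

lemma exM (k : ℕ) (i : Fin (k + 1)) (t : ℕ) :
    ∃ s, Step (GG k) [inl (some (i, 0))] (d k i * t) (c k i * t) s := by
  induction t with
  | zero =>
    exact step_one (mem_rules.2 ⟨false, rfl⟩) (Step.int (by simp) (by simpa using Step.nil le_rfl))
  | succ t ih =>
    obtain ⟨s, h⟩ := ih
    obtain ⟨r, h2⟩ := step_append h (Step.int (z := c k i) (by positivity)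
      (Step.nil (by positivity)))
    refine step_one (mem_rules.2 ⟨true, rfl⟩) (Step.int (s := r) (by positivity) ?_)
    convert h2 using 1
    · rfl
    all_goals (push_cast; ring)

lemma exU (k : ℕ) (i j : Fin (k + 1)) : ∀ t : ℕ,
    ∃ s, Step (GG k) [inl (some (i, j))] ((d k i) ^ 2 ^ (j : ℕ) * t) ((c k i) ^ 2 ^ (j : ℕ) * t) s := by
  induction j using Fin.induction with
  | zero => simpa using exM k i
  | succ j ih =>
    intro t
    obtain ⟨s1, h1⟩ := ih (d k i ^ 2 ^ (j : ℕ) * t)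
    obtain ⟨s2, h2⟩ := ih (c k i ^ 2 ^ (j : ℕ) * t)
    simp only [Fin.val_castSucc] at h1 h2
    push_cast at h1 h2
    rw [mul_left_comm] at h2
    obtain ⟨r, h3⟩ := step_append h1 h2
    refine step_one (mem_rules.2 ⟨true, rfl⟩) (s := r) ?_
    convert h3 using 1
    · rfl
    · simp only [Fin.val_succ, pow_succ, pow_mul]; ring
    · simp only [Fin.val_succ, pow_succ, pow_mul]; ring

lemma exL (k : ℕ) (L : List (Fin (k + 1))) : ∃ p q : ℕ, 0 < q ∧
    (p : ℚ) = (L.map fun i => φ k (some (i, i))).prod * q ∧ ∀ t : ℕ,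
    ∃ s, Step (GG k) (L.map fun i => inl (some (i, i))) (q * t) (p * t) s := by
  induction L with
  | nil => exact ⟨1, 1, one_pos, by simp, fun t => ⟨0, Step.nil (by positivity)⟩⟩
  | cons i L ih =>
    obtain ⟨p, q, hq, e, h⟩ := ih
    have hd := d_pos k i
    refine ⟨c k i ^ 2 ^ (i : ℕ) * p, d k i ^ 2 ^ (i : ℕ) * q, by positivity, ?_, fun t => ?_⟩
    · simp only [List.map_cons, List.prod_cons, φ] at e ⊢
      push_cast; rw [e, div_pow]; field_simp
    · obtain ⟨s1, h1⟩ := exU k i i (q * t)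
      obtain ⟨s2, h2⟩ := h (c k i ^ 2 ^ (i : ℕ) * t)
      push_cast at h1 h2 ⊢
      rw [mul_left_comm] at h2
      obtain ⟨r, h3⟩ := step_append h1 h2
      refine ⟨r, ?_⟩
      convert h3 using 1
      · rfl
      all_goals ring

lemma exP (k : ℕ) : ∃ s, Step (GG k) [inl none] 1 2 s := by
  obtain ⟨p, q, hq, e, h⟩ := exL k (Fin.last k :: (List.finRange k).map Fin.castSucc)
  have e1 := Phi_map (φ k) (fun i : Fin k => some (i.castSucc, i.castSucc)) (List.finRange k) 1
  have e2 := Phi_rest k 1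
  rw [rest, e1, mul_one, mul_one] at e2
  rw [List.map_cons, List.prod_cons, φ_top, List.map_map] at e
  have e3 : (p : ℚ) = 2 * q := by
    rw [e, ← tele k k, ← e2, mul_comm (((A k k : ℚ) / B k k) ^ 2 ^ k)]; rfl
  have e4 : (p : ℤ) = 2 * q := by exact_mod_cast e3
  obtain ⟨s, h1⟩ := h 1
  have h2 : ∃ s, Step (GG k) [inl none] q (2 * q) s := by
    refine step_one (mem_rules.2 ⟨false, rfl⟩) (s := s) ?_
    simpa [rhs, rest, e4, Function.comp_def] using h1
  have h3 : ∀ n : ℕ, (∃ s, Step (GG k) [inl none] (1 + n) (2 * (1 + n)) s) →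
      ∃ s, Step (GG k) [inl none] 1 2 s := by
    intro n
    induction n with
    | zero => simp
    | succ n ih =>
      rintro ⟨s, h⟩
      apply ih
      obtain ⟨r, h4⟩ := step_append h (Step.int (z := -2) (by positivity)
        (Step.nil (by push_cast; omega)))
      refine step_one (mem_rules.2 ⟨true, rfl⟩) (Step.int (s := r) (by positivity) ?_)
      convert h4 using 1
      · rfl
      all_goals (push_cast; ring)
  apply h3 (q - 1)
  rwa [show (1 : ℤ) + (q - 1 : ℕ) = q by omega]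

def wt (k : ℕ) : NT k → ℕ
  | none => 2 ^ k + ((List.finRange k).map fun i : Fin k => 2 ^ i.val).sum
  | some (_, j) => 2 ^ (j : ℕ)

lemma thin (k : ℕ) : Thin (GG k) := by
  apply thin_of_wt (wt k)
  · rintro (_ | ⟨i, j⟩) <;> simp only [wt] <;> positivity
  · intro Y β h
    obtain ⟨b, rfl⟩ := mem_rules.1 h
    rcases Y with _ | ⟨i, j⟩
    · cases b <;> simp [rhs, wsum, wt, rest, Function.comp_def]
    · refine Fin.cases ?_ (fun j' => ?_) j
      · cases b <;> simp [rhs, wsum, wt]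
      · simp [rhs, wsum, wt, pow_succ]; omega

lemma rhs_bound (k : ℕ) (Y : NT k) (b : Bool) : rhs k Y b ≠ [] ∧ (rhs k Y b).length ≤ k + 3 ∧
    ((rhs k Y b).map bits).sum ≤ 12 * k + 4 := by
  rcases Y with _ | ⟨i, j⟩
  · cases b
    · simp [rhs, rest, bits, Function.comp_def]
    · have : Nat.size 2 = 2 := by decide
      simp [rhs, bits, this]
  · refine Fin.cases ?_ (fun j' => ?_) j
    · cases b
      · simp [rhs, bits]
      · have h1 := Nat.size_le.2 (c_lt k i)
        have h2 := Nat.size_le.2 ((d_le_c k i).trans_lt (c_lt k i))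
        simp [rhs, bits]; omega
    · simp [rhs, bits]

lemma size_le (k : ℕ) : size (GG k) ≤ 100 * (k + 1) ^ 3 := by
  have h0 : Fintype.card (NT k) = (k + 1) * (k + 1) + 1 := by simp
  have h1 : (GG k).rules.card ≤ ((k + 1) * (k + 1) + 1) * 2 :=
    Finset.card_image_le.trans (by simp)
  have h2 : ∑ r ∈ (GG k).rules, r.2.length ≤ (GG k).rules.card • (k + 3) :=
    Finset.sum_le_card_nsmul _ _ _ fun r hr => by
      obtain ⟨b, hb⟩ := mem_rules.1 (show (r.1, r.2) ∈ _ from hr)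
      rw [← hb]; exact (rhs_bound k _ b).2.1
  have h3 : ∑ r ∈ (GG k).rules, (r.2.map bits).sum ≤ (GG k).rules.card • (12 * k + 4) :=
    Finset.sum_le_card_nsmul _ _ _ fun r hr => by
      obtain ⟨b, hb⟩ := mem_rules.1 (show (r.1, r.2) ∈ _ from hr)
      rw [← hb]; exact (rhs_bound k _ b).2.2
  rw [smul_eq_mul] at h2 h3
  have h4 := Nat.mul_le_mul_right (k + 3) h1
  have h5 := Nat.mul_le_mul_right (12 * k + 4) h1
  unfold size
  rw [h0]
  nlinarith [Nat.zero_le (k ^ 3), Nat.zero_le (k ^ 2), Nat.zero_le k]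

lemma poly_bound (P : Polynomial ℝ) :
    ∃ (C : ℝ) (m : ℕ), 0 ≤ C ∧ ∀ x : ℝ, 1 ≤ x → P.eval x ≤ C * x ^ m := by
  induction P using Polynomial.induction_on' with
  | add p q hp hq =>
    obtain ⟨C1, m1, a1, h1⟩ := hp
    obtain ⟨C2, m2, a2, h2⟩ := hq
    refine ⟨C1 + C2, m1 + m2, by positivity, fun x hx => ?_⟩
    have b1 : x ^ m1 ≤ x ^ (m1 + m2) := pow_le_pow_right₀ hx (by omega)
    have b2 : x ^ m2 ≤ x ^ (m1 + m2) := pow_le_pow_right₀ hx (by omega)
    rw [Polynomial.eval_add]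
    nlinarith [h1 x hx, h2 x hx]
  | monomial n a =>
    refine ⟨|a|, n, abs_nonneg _, fun x hx => ?_⟩
    rw [Polynomial.eval_monomial]
    exact mul_le_mul_of_nonneg_right (le_abs_self a) (by positivity)

theorem result (P : Polynomial ℝ) :
    ∃ (N : Type) (_ : Fintype N) (G : GVAS N) (a b : ℕ), Thin G ∧ (∀ r ∈ G.rules, r.2 ≠ []) ∧
      (∃ s, Deriv G a b s) ∧ ∀ s, Deriv G a b s →
        (2 : ℝ) ^ P.eval ((size G + Nat.size a + Nat.size b : ℕ) : ℝ) < s := by
  obtain ⟨C, m, hC, hP⟩ := poly_bound P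
  have t := (tendsto_pow_const_div_const_pow_of_one_lt (3 * m) (one_lt_two (α := ℝ))).const_mul
    (C * 103 ^ m * 2)
  rw [mul_zero] at t
  obtain ⟨k0, hk0⟩ := Filter.eventually_atTop.1 (t.eventually (gt_mem_nhds one_pos))
  have hk := hk0 (k0 + 1 + 1) (by omega)
  set k := k0 + 1 with hkk
  refine ⟨NT k, inferInstance, GG k, 1, 2, thin k, fun r hr => ?_, ?_, fun s hs => ?_⟩
  · obtain ⟨b, hb⟩ := mem_rules.1 (show (r.1, r.2) ∈ _ from hr)
    rw [← hb]; exact (rhs_bound k _ b).1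
  · obtain ⟨s, h⟩ := exP k
    exact ⟨s, (deriv_iff 1 2 s).2 h⟩
  · obtain ⟨n, hn, hd⟩ := lower k s 1 ((deriv_iff 1 2 s).1 hs)
    have h1 : ((4 : ℤ) ^ k) ^ 2 ^ k ≤ 1 + n := Int.le_of_dvd (by positivity) hd
    have h2 : ((2 : ℤ) ^ 2 ^ k) ^ 2 ≤ ((4 : ℤ) ^ k) ^ 2 ^ k := by
      rw [← pow_mul, mul_comm, pow_mul]
      apply pow_le_pow_left₀ (by norm_num)
      calc (2 : ℤ) ^ 2 = 4 ^ 1 := by norm_num
        _ ≤ 4 ^ k := pow_le_pow_right₀ (by norm_num) (by omega)
    have h3 : (2 : ℤ) ^ 1 ≤ 2 ^ 2 ^ k := pow_le_pow_right₀ (by norm_num) Nat.one_le_two_pow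
    have h4 : (2 : ℤ) ^ 2 ^ k ≤ s := by nlinarith
    have h5 : (2 : ℝ) ^ 2 ^ k ≤ s := by exact_mod_cast h4
    refine lt_of_lt_of_le ?_ h5
    rw [← Real.rpow_natCast]
    apply Real.rpow_lt_rpow_of_exponent_lt one_lt_two
    have s2 : Nat.size 2 = 2 := by decide
    have h6 : size (GG k) + Nat.size 1 + Nat.size 2 ≤ 103 * (k + 1) ^ 3 := by
      have := size_le k
      have : 1 ≤ (k + 1) ^ 3 := Nat.one_le_pow _ _ (by omega)
      rw [Nat.size_one, s2]; omega
    have h7 : (1 : ℝ) ≤ ((size (GG k) + Nat.size 1 + Nat.size 2 : ℕ) : ℝ) := by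
      exact_mod_cast (by rw [s2]; omega)
    refine (hP _ h7).trans_lt ?_
    have h8 : ((size (GG k) + Nat.size 1 + Nat.size 2 : ℕ) : ℝ) ≤ 103 * ((k + 1 : ℕ) : ℝ) ^ 3 := by
      exact_mod_cast h6
    calc _ ≤ C * (103 * ((k + 1 : ℕ) : ℝ) ^ 3) ^ m := by gcongr
      _ < _ := by
        rw [← mul_div_assoc, div_lt_one (by positivity), pow_succ (2 : ℝ) k] at hk
        rw [mul_pow, ← pow_mul]; push_cast at hk ⊢; linarith

end Pool.Agent.Results.MP_020e3f_lc.DoublyExp
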